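import Pool.Agent.H15.FLC.Targets

/-!
MP_c62aed_lc, cutting planes for random CNFs: few half clauses cover few assignments (row CAPC).
-/

set_option autoImplicit false

namespace Pool.Agent.H95.FLC

open Finset Pool.Agent.H15.FLC

/-- The assignments which violate a half clause are at most `2 ^ (n - k)`. -/
theorem capc_one {n k : ℕ} (c : Half n k) :
    (univ.filter fun x : Fin n → Bool => ∀ i ∈ c.1.1, x i ≠ c.2 i).card ≤ 2 ^ (n - k) := by
  classical
  have hc : Fintype.card ({j : Fin n // j ∉ c.1.1} → Bool) = 2 ^ (n - k) := by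
    rw [Fintype.card_fun, Fintype.card_bool, Fintype.card_subtype_compl, Fintype.card_fin]
    simp [c.1.2]
  rw [← hc, ← card_univ]
  apply card_le_card_of_injOn (fun (x : Fin n → Bool) (j : {j : Fin n // j ∉ c.1.1}) => x j.1)
    (fun _ _ => mem_coe.2 (mem_univ _))
  intro x hx y hy hxy
  have hx' := (mem_filter.1 (mem_coe.1 hx)).2
  have hy' := (mem_filter.1 (mem_coe.1 hy)).2
  funext j
  by_cases hj : j ∈ c.1.1
  · have h1 := hx' j hj
    have h2 := hy' j hj
    rcases hxj : x j with _ | _ <;> rcases hyj : y j with _ | _ <;> rcases hcj : c.2 j with _ | _ <;>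
      simp_all
  · exact congrFun hxy ⟨j, hj⟩

theorem pf_CAPC : T_CAPC := by
  intro n k m H q T B hT hcov
  classical
  have h1 : B ⊆ T.biUnion fun c => univ.filter fun x : Fin n → Bool =>
      ∀ i ∈ (H c).1.1, x i ≠ (H c).2 i := by
    intro x hx
    obtain ⟨c, hc, hv⟩ := hcov x hx
    exact mem_biUnion.2 ⟨c, hc, mem_filter.2 ⟨mem_univ _, hv⟩⟩
  calc B.card ≤ _ := card_le_card h1
    _ ≤ ∑ c ∈ T, (univ.filter fun x : Fin n → Bool =>
          ∀ i ∈ (H c).1.1, x i ≠ (H c).2 i).card := card_biUnion_le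
    _ ≤ ∑ c ∈ T, 2 ^ (n - k) := sum_le_sum fun c _ => capc_one (H c)
    _ = T.card * 2 ^ (n - k) := by rw [sum_const, smul_eq_mul]
    _ ≤ q * 2 ^ (n - k) := Nat.mul_le_mul_right _ hT

end Pool.Agent.H95.FLC
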